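import Pool.Agent.H6.NeckB

open Pool.Agent.H6.Neck

theorem Pool.Agent.Results.MP_9837da_co.Q1.result :
    IsLeast {k : ℕ | ∃ c : ℤ × ℤ → Fin k, ∀ (a b : ℤ) (n : ℕ), 1 ≤ n → ¬ FairSplit 1 c a b n} 3 := by
  refine ⟨⟨col, upper⟩, fun k ⟨c, hc⟩ => ?_⟩
  by_contra hk
  exact lower (by omega) c hc
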